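import Mathlib
import Pool.Agent.Lib.helper17.MCFin

set_option autoImplicit false

namespace Pool.Agent.Results.MP_602553_lc.Exists

/-- Structures with universe `Fin n` for the vocabulary with symbols `ι` and arities `ar`. -/
abbrev Str {ι : Type} (ar : ι → ℕ) (n : ℕ) := (s : ι) → (Fin (ar s) → Fin n) → Bool

/-- The class is closed under isomorphism and induced substructures: the structure induced along
any injection of universes stays in the class. -/
def Closed {ι : Type} {ar : ι → ℕ} (C : ∀ n, Set (Str ar n)) : Prop :=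
  ∀ m n (f : Fin m ↪ Fin n), ∀ A ∈ C n, (fun s t => A s (f ∘ t)) ∈ C m

/-- The Specker function: number of labelled structures of the class on `n` points. -/
noncomputable def Sp {ι : Type} {ar : ι → ℕ} (C : ∀ n, Set (Str ar n)) (n : ℕ) : ℤ := (C n).ncard

/-- MC-finite integer sequences. -/
def MCFinite (s : ℕ → ℤ) : Prop :=
  ∀ m : ℕ, 1 ≤ m → ∃ r p : ℕ, 1 ≤ r ∧ 1 ≤ p ∧ ∃ α : Fin (p + 1) → ℤ, ∀ n ≥ r,
    s (n + p + 1) ≡ ∑ i : Fin (p + 1), α i * s (n + i) [ZMOD m]

theorem result (ι : Type) [Finite ι] (ar : ι → ℕ) (_h2 : ∀ s, ar s ≤ 2) (h : ∃ s, ar s = 2) :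
    ∃ C : ∀ n, Set (Str ar n), Closed C ∧ ¬ MCFinite (Sp C) := by
  obtain ⟨s, hs⟩ := h
  obtain ⟨C, h1, h2⟩ := H17MCFin.main ar s hs.ge
  refine ⟨C, h1, fun h => h2 ?_⟩
  obtain ⟨r, p, _, _, α, h⟩ := h 2 (by norm_num)
  exact H17MCFin.per _ r (p + 1) α h

end Pool.Agent.Results.MP_602553_lc.Exists
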